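import Mathlib
import Pool.Agent.MWG.Stmts

/-!
# Row mwg BSM: `ClM β → BaseR β`
-/

set_option autoImplicit false

namespace Pool.Agent.MWG.H95

open Pool.Agent.Helper14_MV Pool.Agent.Helper2_MV Pool.Agent.MVO Pool.Agent.MWL
open Pool.Agent.MWS Pool.Agent.MWG

theorem bsm : BsmStmt := by
  intro β h
  have rr : RR β [0, 0, 2, 0] [0, 0, 2, 0, 0] := by
    have h1 : RR β [0, 2, 0] [0, 2, 0, 0] := h.gm.sub (fun c => if c = 0 then [0] else [2])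
    exact (RR.refl (β := β) [0]).append h1
  have a1 : RR β [0, 1, 0, 1] [1, 0, 0, 1] :=
    h.cmw [] [0, 1] 0 1 [0, 1] ⟨[], [], rfl⟩ (by simp) (by simp) (by decide)
  have a2 : RR β [1, 0, 0, 1] [1, 0, 0, 1, 1] :=
    h.gm.sub (fun c => if c = 0 then [1] else [0, 0])
  have a3 : RR β [1, 0, 0, 1, 1] [1, 1, 1, 0, 0] := (RR.refl (β := β) [1]).append h.r0
  have ap1 : RR β [1, 1] [1, 1, 1] := h.ap.sub (fun _ => [1])
  have a4 : RR β [1, 1, 1, 0, 0] [1, 1, 0, 0] := ap1.symm.append (RR.refl (β := β) [0, 0])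
  have b1 : RR β [1, 0, 1, 0] [0, 1, 1, 0] :=
    h.cmw [] [1, 0] 1 0 [1, 0] ⟨[], [], rfl⟩ (by simp) (by simp) (by decide)
  have b2 : RR β [0, 1, 1, 0] [0, 1, 1, 0, 0] :=
    h.gm.sub (fun c => if c = 0 then [0] else [1, 1])
  have b3 : RR β [0, 1, 1, 0, 0] [0, 0, 0, 1, 1] :=
    (RR.refl (β := β) [0]).append h.r0.symm
  have b4 : RR β [0, 0, 0, 1, 1] [0, 0, 1, 1] := h.ap.symm.append (RR.refl (β := β) [1, 1])
  have c1 : RR β [0, 1, 0, 1] [1, 1, 0, 0] := β.trans (β.trans (β.trans a1 a2) a3) a4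
  have c2 : RR β [1, 0, 1, 0] [0, 0, 1, 1] := β.trans (β.trans (β.trans b1 b2) b3) b4
  have ic : RR β [0, 1, 0, 1] [1, 0, 1, 0] := β.trans (β.trans c1 h.r0.symm) c2.symm
  exact { ap := h.ap, ic := ic, rr := rr }

end Pool.Agent.MWG.H95
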